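import Pool.Agent.Lib.helper22.Weak

namespace Pool.Agent.Results.MP_d10958_an.NoCcs

open RCLike Pool.Agent.Lib.helper22.Weak

variable (𝕜 : Type*) {X : Type*} [RCLike 𝕜] [NormedAddCommGroup X] [NormedSpace 𝕜 X]

def Slice (S : Set X) : Prop :=
  ∃ (f : X →L[𝕜] 𝕜) (δ M : ℝ), IsLUB ((fun y => re (f y)) '' {y | ‖y‖ ≤ 1}) M ∧ 0 < δ ∧
    S = {y | ‖y‖ ≤ 1 ∧ M - δ < re (f y)}

def Ccs (C : Set X) : Prop :=
  ∃ (n : ℕ) (S : Fin n → Set X) (l : Fin n → ℝ), (∀ i, Slice 𝕜 (S i)) ∧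
    (∀ i, 0 < l i ∧ l i ≤ 1) ∧ ∑ i, l i = 1 ∧
    C = {z | ∃ y : Fin n → X, (∀ i, y i ∈ S i) ∧ z = ∑ i, (l i : 𝕜) • y i}

def CcsDelta (x : X) : Prop :=
  ‖x‖ = 1 ∧ ∀ C, Ccs 𝕜 C → x ∈ C → IsLUB ((fun y => ‖x - y‖) '' C) 2

theorem result [CompleteSpace X] (A : Set (X →L[𝕜] X))
    (h1 : ∀ T ∈ A, FiniteDimensional 𝕜 (T : X →ₗ[𝕜] X).range)
    (h2 : ∃ M < (2 : ℝ), ∀ T ∈ A, ‖ContinuousLinearMap.id 𝕜 X - T‖ ≤ M)
    (h3 : ∀ ε > 0, ∀ x, ∃ T ∈ A, ‖x - T x‖ < ε) (x : X) : ¬ CcsDelta 𝕜 x := by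
  rintro ⟨hx, h⟩
  obtain ⟨M, hM, h2⟩ := h2
  have hε : 0 < (2 - M) / 3 := by linarith
  obtain ⟨T, hT, h4⟩ := h3 _ hε x
  have := h1 T hT
  obtain ⟨z, z1, z2, z3⟩ := near x hx.le (fun n g η hn hη ε hε => by
    have a : ∀ j, ∃ S, Slice 𝕜 S ∧ x ∈ S ∧
        ∀ z ∈ S, ‖z‖ ≤ 1 ∧ re (g j x) - η < re (g j z) := fun j => by
      have b := isLUB_csSup (s := (fun y => re (g j y)) '' {y | ‖y‖ ≤ 1}) ⟨_, x, hx.le, rfl⟩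
        ⟨‖g j‖, by
          rintro _ ⟨y, hy, rfl⟩
          exact (re_le_norm _).trans ((g j).unit_le_opNorm y hy)⟩
      have c := b.1 ⟨x, hx.le, rfl⟩
      exact ⟨_, ⟨g j, _ - re (g j x) + η, _, b, by linarith, rfl⟩, ⟨hx.le, by linarith⟩,
        fun z hz => ⟨hz.1, by linarith [hz.2]⟩⟩
    choose S s1 s2 s3 using a
    have n0 : (1 : ℝ) ≤ n := Nat.one_le_cast.2 hn
    have l1 : ∑ _i : Fin n, (1 / n : ℝ) = 1 := by simp [hn.ne']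
    obtain ⟨_, ⟨_, ⟨y, hy, rfl⟩, rfl⟩, b1, -⟩ := (h _ ⟨n, S, fun _ => 1 / n, s1,
      fun _ => ⟨by positivity, div_le_one_of_le₀ n0 (by positivity)⟩, l1, rfl⟩ ⟨fun _ => x, s2, by
        rw [← Finset.sum_smul, ← ofReal_sum, l1, ofReal_one, one_smul]⟩).exists_between
      (sub_lt_self 2 hε)
    exact ⟨y, fun j => s3 j _ (hy j), b1⟩) T.rangeRestrict hε hε
  have a1 : ‖T (z - x)‖ < (2 - M) / 3 := z2
  have a2 := ((ContinuousLinearMap.id 𝕜 X - T).unit_le_opNorm z z1).trans (h2 T hT)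
  have a3 : x - z = (x - T x) - T (z - x) - (ContinuousLinearMap.id 𝕜 X - T) z := by
    simp
  have a4 := norm_sub_le ((x - T x) - T (z - x)) ((ContinuousLinearMap.id 𝕜 X - T) z)
  rw [← a3] at a4
  linarith [norm_sub_le (x - T x) (T (z - x))]

end Pool.Agent.Results.MP_d10958_an.NoCcs
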